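import Pool.Agent.N167.TR.Stm
import Pool.Agent.N415.DY.Bar

set_option autoImplicit false

/-!
# TR/5: positivity, energy bound, times with finite enstrophy (tree model)
-/

namespace Pool.Agent.N951.TR5

open Set Filter Topology
open Pool.Agent.N167.TR

section genl
variable {M : ℕ}

lemma gen_congr (hG : S_gen) (n : ℕ) (g h : List (Fin M) → ℝ)
    (H : ∀ j : List (Fin M), j.length = n → g j = h j) : gen n g = gen n h :=
  le_antisymm ((hG M).2.2.1 n g h (fun j hj => (H j hj).le))
    ((hG M).2.2.1 n h g (fun j hj => (H j hj).ge))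

lemma gen_nonneg (hG : S_gen) (n : ℕ) (g : List (Fin M) → ℝ) (h : ∀ j, 0 ≤ g j) :
    0 ≤ gen n g := by
  have h1 := (hG M).2.2.1 n (fun _ => 0) g (fun j _ => h j)
  have h2 := (hG M).2.2.2.2.1 n 0
  rw [mul_zero] at h2
  rw [h2] at h1
  exact h1

lemma step1 (hG : S_gen) (B D ν : ℝ) (g z : List (Fin M) → ℝ) (n : ℕ) :
    gen n (fun j => z j * rhs B D ν g z j) =
      gen n (fun j => z j * g j) - ν * (D ^ n * gen n (fun j => z j ^ 2)) +
      gen n (fun j => z j * inflow B z j) -
      B ^ n * gen n (fun j => z j ^ 2 * ∑ k : Fin M, z (k :: j)) := by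
  have h1 : gen n (fun j => z j * rhs B D ν g z j) =
      gen n (fun j => ((z j * g j + (-(ν * D ^ n)) * z j ^ 2) + z j * inflow B z j) +
        (-(B ^ n)) * (z j ^ 2 * ∑ k : Fin M, z (k :: j))) := by
    apply gen_congr hG
    intro j hj
    unfold rhs
    rw [hj]
    ring
  rw [h1, (hG M).1 n (fun j => (z j * g j + (-(ν * D ^ n)) * z j ^ 2) + z j * inflow B z j)
      (fun j => (-(B ^ n)) * (z j ^ 2 * ∑ k : Fin M, z (k :: j))),
    (hG M).1 n (fun j => z j * g j + (-(ν * D ^ n)) * z j ^ 2) (fun j => z j * inflow B z j),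
    (hG M).1 n (fun j => z j * g j) (fun j => (-(ν * D ^ n)) * z j ^ 2),
    (hG M).2.1 n (-(ν * D ^ n)) (fun j => z j ^ 2),
    (hG M).2.1 n (-(B ^ n)) (fun j => z j ^ 2 * ∑ k : Fin M, z (k :: j))]
  ring

lemma step2 (hG : S_gen) (B : ℝ) (z : List (Fin M) → ℝ) (n : ℕ) :
    gen (n + 1) (fun j => z j * inflow B z j) =
      B ^ n * gen n (fun j => z j ^ 2 * ∑ k : Fin M, z (k :: j)) := by
  rw [← (hG M).2.1 n (B ^ n) (fun j => z j ^ 2 * ∑ k : Fin M, z (k :: j))]
  show gen n (fun i => ∑ k : Fin M, z (k :: i) * inflow B z (k :: i)) = _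
  apply gen_congr hG
  intro j hj
  have h1 : ∀ k : Fin M, z (k :: j) * inflow B z (k :: j) = (B ^ n * z j ^ 2) * z (k :: j) := by
    intro k
    show z (k :: j) * (B ^ j.length * z j ^ 2) = _
    rw [hj]
    ring
  rw [Finset.sum_congr rfl (fun k _ => h1 k), ← Finset.mul_sum]
  ring

/-- telescoping -/
lemma tele (hG : S_gen) (B D ν : ℝ) (g z : List (Fin M) → ℝ) (N : ℕ) :
    ∑ n ∈ Finset.range (N + 1), gen n (fun j => z j * rhs B D ν g z j) =
      ∑ n ∈ Finset.range (N + 1),
        (gen n (fun j => z j * g j) - ν * (D ^ n * gen n (fun j => z j ^ 2))) -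
      B ^ N * gen N (fun j => z j ^ 2 * ∑ k : Fin M, z (k :: j)) := by
  induction N with
  | zero =>
    simp only [zero_add, Finset.sum_range_one]
    rw [step1 hG]
    have : gen 0 (fun j : List (Fin M) => z j * inflow B z j) = 0 := by
      show z [] * inflow B z [] = 0
      show z [] * 0 = 0
      ring
    rw [this]
    ring
  | succ N ih =>
    rw [Finset.sum_range_succ, ih, Finset.sum_range_succ _ (N + 1), step1 hG, step2 hG]
    ring

end genl

section sol
variable {M : ℕ} {B D ν : ℝ} {f : List (Fin M) → ℝ → ℝ} {x : List (Fin M) → ℝ}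
  {Z : List (Fin M) → ℝ → ℝ}

lemma cont_sol (hZ : IsSol B D ν f x Z) (j : List (Fin M)) : ContinuousOn (Z j) (Ici 0) :=
  fun t ht => (hZ.2 j t ht).continuousWithinAt

lemma deriv_right (hZ : IsSol B D ν f x Z) (j : List (Fin M)) {t : ℝ} (ht : 0 ≤ t) :
    HasDerivWithinAt (Z j) (rhs B D ν (fun i => f i t) (fun i => Z i t) j) (Ici t) t :=
  (hZ.2 j t ht).mono (Ici_subset_Ici.2 ht)

lemma inflow_nonneg (hB : 0 < B) (X : List (Fin M) → ℝ) (j : List (Fin M)) :
    0 ≤ inflow B X j := by
  cases j with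
  | nil => exact le_rfl
  | cons k i => exact mul_nonneg (pow_nonneg hB.le _) (sq_nonneg _)

/-- positivity -/
lemma pos_sol (hB : 0 < B) (hZ : IsSol B D ν f x Z) (hx : ∀ j, 0 ≤ x j)
    (hf : ∀ j, ∀ t, 0 ≤ t → 0 ≤ f j t) (j : List (Fin M)) {T : ℝ} (hT : 0 ≤ T) :
    0 ≤ Z j T := by
  have hc : ContinuousOn (fun t => ν * D ^ j.length + B ^ j.length * ∑ k : Fin M, Z (k :: j) t)
      (Icc 0 T) :=
    (continuousOn_const.add (continuousOn_const.mul
      (continuousOn_finsetSum _ fun k _ => cont_sol hZ (k :: j)))).mono Icc_subset_Ici_self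
  obtain ⟨K, hK⟩ := isCompact_Icc.exists_bound_of_continuousOn hc
  have hK0 : 0 ≤ K := (norm_nonneg _).trans (hK 0 ⟨le_rfl, hT⟩)
  have key : ∀ e : ℝ, 0 < e → -Z j T ≤ e * Real.exp ((K + 1) * T) := by
    intro e he
    have h1 := image_le_of_deriv_right_lt_deriv_boundary' (f := fun t => -Z j t)
      (f' := fun t => -rhs B D ν (fun m => f m t) (fun m => Z m t) j) (a := 0) (b := T)
      ((cont_sol hZ j).mono Icc_subset_Ici_self).neg
      (fun t ht => (deriv_right hZ j ht.1).neg)
      (B := fun t => e * Real.exp ((K + 1) * t))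
      (B' := fun t => e * (Real.exp ((K + 1) * t) * (K + 1))) (by
        rw [hZ.1 j, mul_zero, Real.exp_zero]
        linarith [hx j])
      (by fun_prop)
      (fun t _ => by
        have h2 : HasDerivAt (fun t : ℝ => (K + 1) * t) (K + 1) t := by
          simpa using (hasDerivAt_id t).const_mul (K + 1)
        exact (h2.exp.const_mul e).hasDerivWithinAt)
      (fun t ht heq => by
        have h3 := hK t ⟨ht.1, ht.2.le⟩
        rw [Real.norm_eq_abs, abs_le] at h3
        have h4 := inflow_nonneg hB (fun m => Z m t) j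
        have h5 := hf j t ht.1
        have h6 : 0 < e * Real.exp ((K + 1) * t) := by positivity
        have h7 : Z j t = -(e * Real.exp ((K + 1) * t)) := by linarith
        unfold rhs
        simp only
        nlinarith [mul_le_mul_of_nonneg_right h3.2 h6.le]) (right_mem_Icc.2 hT)
    exact h1
  have hE := Real.exp_pos ((K + 1) * T)
  by_contra hneg
  push Not at hneg
  have h1 := key (-Z j T / (2 * Real.exp ((K + 1) * T))) (by
    apply div_pos (by linarith) (by positivity))
  have h2 : -Z j T / (2 * Real.exp ((K + 1) * T)) * Real.exp ((K + 1) * T) = -Z j T / 2 := by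
    field_simp
  rw [h2] at h1
  linarith

/-- the derivative of the energy -/
lemma energy_deriv (hG : S_gen) (hZ : IsSol B D ν f x Z) (N : ℕ) {t : ℝ} (ht : 0 ≤ t) :
    HasDerivWithinAt (fun r => ∑ n ∈ Finset.range (N + 1), gen n (fun j => Z j r ^ 2))
      (∑ n ∈ Finset.range (N + 1), gen n (fun j => 2 * (Z j t *
        rhs B D ν (fun m => f m t) (fun m => Z m t) j))) (Ici 0) t := by
  apply HasDerivWithinAt.fun_sum
  intro n _
  refine (hG M).2.2.2.2.2.1 n (fun j r => Z j r ^ 2) (fun j r => 2 * (Z j r *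
        rhs B D ν (fun m => f m r) (fun m => Z m r) j)) (Ici 0) t ?_
  intro j _
  have h2 := (hZ.2 j t ht).fun_pow 2
  refine h2.congr_deriv ?_
  push_cast
  ring

/-- the differential inequality for the energy -/
lemma energy_ineq (hG : S_gen) (hB : 0 < B) (hD : 1 < D) (hν : 0 < ν)
    (hpos : ∀ j t, 0 ≤ t → 0 ≤ Z j t) {G : ℝ} (N : ℕ) {t : ℝ} (ht : 0 ≤ t)
    (hf : ∑ n ∈ Finset.range (N + 1), gen n (fun j => f j t ^ 2) ≤ G) :
    ∑ n ∈ Finset.range (N + 1), gen n (fun j => 2 * (Z j t *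
        rhs B D ν (fun m => f m t) (fun m => Z m t) j)) ≤
      G / ν - ν * ∑ n ∈ Finset.range (N + 1), D ^ n * gen n (fun j => Z j t ^ 2) := by
  have h1 : ∀ n, gen n (fun j => 2 * (Z j t *
        rhs B D ν (fun m => f m t) (fun m => Z m t) j)) = 2 * gen n (fun j => Z j t *
        rhs B D ν (fun m => f m t) (fun m => Z m t) j) := fun n =>
    (hG M).2.1 n 2 (fun j => Z j t * rhs B D ν (fun m => f m t) (fun m => Z m t) j)
  rw [Finset.sum_congr rfl (fun n _ => h1 n), ← Finset.mul_sum,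
    tele hG B D ν (fun m => f m t) (fun m => Z m t) N]
  have h2 : 0 ≤ B ^ N * gen N (fun j => Z j t ^ 2 * ∑ k : Fin M, Z (k :: j) t) := by
    refine mul_nonneg (pow_nonneg hB.le _) (gen_nonneg hG _ _ fun j => ?_)
    exact mul_nonneg (sq_nonneg _) (Finset.sum_nonneg fun k _ => hpos _ t ht)
  have h3 : ∀ n, 2 * (gen n (fun j => Z j t * f j t) -
      ν * (D ^ n * gen n (fun j => Z j t ^ 2))) ≤
      gen n (fun j => f j t ^ 2) / ν - ν * (D ^ n * gen n (fun j => Z j t ^ 2)) := by
    intro n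
    have a1 : 2 * gen n (fun j => Z j t * f j t) ≤
        gen n (fun j => f j t ^ 2) / ν + ν * gen n (fun j => Z j t ^ 2) := by
      have b1 : 2 * gen n (fun j => Z j t * f j t) = gen n (fun j => 2 * (Z j t * f j t)) :=
        ((hG M).2.1 n 2 (fun j => Z j t * f j t)).symm
      have b2 : gen n (fun j => f j t ^ 2) / ν + ν * gen n (fun j => Z j t ^ 2) =
          gen n (fun j => ν⁻¹ * f j t ^ 2 + ν * Z j t ^ 2) := by
        rw [(hG M).1 n (fun j => ν⁻¹ * f j t ^ 2) (fun j => ν * Z j t ^ 2),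
          (hG M).2.1 n ν⁻¹ (fun j => f j t ^ 2), (hG M).2.1 n ν (fun j => Z j t ^ 2)]
        ring
      rw [b1, b2]
      refine (hG M).2.2.1 n _ _ fun j _ => ?_
      have c1 : 0 ≤ (ν⁻¹) * (f j t - ν * Z j t) ^ 2 := by positivity
      have c2 : (ν⁻¹) * (f j t - ν * Z j t) ^ 2 =
          ν⁻¹ * f j t ^ 2 + ν * Z j t ^ 2 - 2 * (Z j t * f j t) := by
        field_simp
        ring
      linarith
    have a2 : gen n (fun j => Z j t ^ 2) ≤ D ^ n * gen n (fun j => Z j t ^ 2) :=
      le_mul_of_one_le_left (gen_nonneg hG _ _ fun j => sq_nonneg _) (one_le_pow₀ hD.le)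
    nlinarith
  have h4 := Finset.sum_le_sum (s := Finset.range (N + 1)) (fun n _ => h3 n)
  rw [← Finset.mul_sum, Finset.sum_sub_distrib
    (fun n => gen n (fun j => f j t ^ 2) / ν), ← Finset.sum_div, ← Finset.mul_sum] at h4
  have h5 : (∑ n ∈ Finset.range (N + 1), gen n (fun j => f j t ^ 2)) / ν ≤ G / ν :=
    div_le_div_of_nonneg_right hf hν.le
  linarith

end sol

lemma force_bound (hG : S_gen) {M : ℕ} {F : ℕ → ℝ} {f : List (Fin M) → ℝ → ℝ}
    (hF : Force F f) : ∃ G : ℝ, 0 ≤ G ∧ ∀ N : ℕ, ∀ t, 0 ≤ t →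
      ∑ n ∈ Finset.range (N + 1), gen n (fun j => f j t ^ 2) ≤ G := by
  obtain ⟨hR, -, hf⟩ := hF
  obtain ⟨C, hC⟩ := hR (2 * M + 2) (by positivity)
  refine ⟨C ^ 2 * 2, by positivity, fun N t ht => ?_⟩
  have h1 : ∀ n, gen n (fun j => f j t ^ 2) ≤ C ^ 2 * (1 / 2 : ℝ) ^ n := by
    intro n
    rcases Nat.eq_zero_or_pos M with hM | hM
    · have h2 : gen n (fun j => f j t ^ 2) ≤ gen n (fun _ : List (Fin M) => C ^ 2) := by
        refine (hG M).2.2.1 n _ _ fun j hj => ?_
        have hn : n = 0 := by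
          rcases j with _ | ⟨k, i⟩
          · exact hj.symm
          · subst hM
            exact k.elim0
        have a1 := hf j t ht
        have a2 := hC 0
        rw [hj, hn] at a1
        rw [pow_zero, one_mul] at a2
        exact pow_le_pow_left₀ a1.1 (a1.2.trans a2) 2
      rcases n with _ | n
      · refine h2.trans ?_
        rw [(hG M).2.2.2.2.1]
        simp
      · refine h2.trans ?_
        rw [(hG M).2.2.2.2.1, hM]
        simp only [Nat.cast_zero, ne_eq, Nat.add_eq_zero_iff, one_ne_zero, and_false,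
          not_false_eq_true, zero_pow, zero_mul]
        positivity
    · have hs : (0 : ℝ) < 2 * M + 2 := by positivity
      have h2 : gen n (fun j => f j t ^ 2) ≤
          gen n (fun _ : List (Fin M) => (C / (2 * M + 2) ^ n) ^ 2) := by
        refine (hG M).2.2.1 n _ _ fun j hj => ?_
        have a1 := hf j t ht
        have a2 := hC n
        rw [hj] at a1
        have a3 : F n ≤ C / (2 * M + 2) ^ n := by
          rw [le_div_iff₀ (by positivity)]
          linarith
        exact pow_le_pow_left₀ a1.1 (a1.2.trans a3) 2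
      refine h2.trans ?_
      rw [(hG M).2.2.2.2.1]
      have h3 : (M : ℝ) ^ n * (C / (2 * M + 2) ^ n) ^ 2 =
          C ^ 2 * ((M : ℝ) ^ n / (((2 * M + 2) ^ n) ^ 2)) := by
        field_simp
      rw [h3]
      refine mul_le_mul_of_nonneg_left ?_ (sq_nonneg _)
      rw [← pow_mul, mul_comm n 2, pow_mul, ← div_pow]
      refine pow_le_pow_left₀ (by positivity) ?_ n
      rw [div_le_div_iff₀ (by positivity) (by norm_num)]
      have : (0 : ℝ) ≤ M := by positivity
      nlinarith
  calc ∑ n ∈ Finset.range (N + 1), gen n (fun j => f j t ^ 2)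
      ≤ ∑ n ∈ Finset.range (N + 1), C ^ 2 * (1 / 2 : ℝ) ^ n :=
        Finset.sum_le_sum fun n _ => h1 n
    _ = C ^ 2 * ∑ n ∈ Finset.range (N + 1), (1 / 2 : ℝ) ^ n := by rw [Finset.mul_sum]
    _ ≤ C ^ 2 * 2 := mul_le_mul_of_nonneg_left (sum_geometric_two_le _) (sq_nonneg _)

theorem main : Pool.Agent.N167.TR.S_energy := by
  intro hG M B D ν F f x Z hB hD hν hF hx hsum hZ
  obtain ⟨G, hG0, hGb⟩ := force_bound hG hF
  have hpos : ∀ j t, 0 ≤ t → 0 ≤ Z j t := fun j t ht =>
    pos_sol hB hZ hx (fun j t ht => (hF.2.2 j t ht).1) j ht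
  set E : ℝ := max (∑' j, x j ^ 2) (G / ν ^ 2) with hE
  have hE1 : G / ν ≤ ν * E := by
    have h1 : G / ν ^ 2 ≤ E := le_max_right _ _
    have h2 : ν * (G / ν ^ 2) ≤ ν * E := mul_le_mul_of_nonneg_left h1 hν.le
    have h3 : ν * (G / ν ^ 2) = G / ν := by field_simp
    linarith
  have hde : ∀ N : ℕ, ∀ t, 0 ≤ t → ∑ n ∈ Finset.range (N + 1), gen n (fun j => Z j t ^ 2) ≤
      ∑ n ∈ Finset.range (N + 1), D ^ n * gen n (fun j => Z j t ^ 2) := fun N t ht =>
    Finset.sum_le_sum fun n _ =>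
      le_mul_of_one_le_left (gen_nonneg hG _ _ fun j => sq_nonneg _) (one_le_pow₀ hD.le)
  have hen : ∀ N : ℕ, ∀ t, 0 ≤ t →
      ∑ n ∈ Finset.range (N + 1), gen n (fun j => Z j t ^ 2) ≤ E := by
    intro N T hT
    refine Pool.Agent.N415.DY.t_scalar T E
      (fun r => ∑ n ∈ Finset.range (N + 1), gen n (fun j => Z j r ^ 2))
      (fun t => ∑ n ∈ Finset.range (N + 1), gen n (fun j => 2 * (Z j t *
        rhs B D ν (fun m => f m t) (fun m => Z m t) j))) hT ?_ ?_ ?_ T ⟨hT, le_rfl⟩
    · intro t ht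
      exact (energy_deriv hG hZ N ht.1).mono Icc_subset_Ici_self
    · have h1 := (hG M).2.2.2.2.2.2 x hx hsum (N + 1)
      have h2 : ∑ n ∈ Finset.range (N + 1), gen n (fun j => Z j 0 ^ 2) =
          ∑ n ∈ Finset.range (N + 1), gen n (fun j => x j ^ 2) :=
        Finset.sum_congr rfl fun n _ => gen_congr hG n _ _ fun j _ => by rw [hZ.1 j]
      show ∑ n ∈ Finset.range (N + 1), gen n (fun j => Z j 0 ^ 2) ≤ E
      rw [h2]
      exact h1.trans (le_max_left _ _)
    · intro t ht hlt
      have h1 := energy_ineq hG hB hD hν hpos N ht.1 (hGb N t ht.1)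
      have h2 := hde N t ht.1
      have h3 : ν * E ≤ ν * ∑ n ∈ Finset.range (N + 1), D ^ n * gen n (fun j => Z j t ^ 2) :=
        mul_le_mul_of_nonneg_left (hlt.le.trans h2) hν.le
      linarith
  refine ⟨hpos, ⟨E, hen⟩, fun τ hτ => ?_⟩
  set C' : ℝ := 2 / (ν * τ) * (E + G * τ / ν) + 1 with hC'
  -- continuity of the enstrophy
  have hdc : ∀ N : ℕ, ContinuousOn
      (fun t => ∑ n ∈ Finset.range (N + 1), D ^ n * gen n (fun j => Z j t ^ 2)) (Icc (τ / 2) τ) := by
    intro N
    apply continuousOn_finsetSum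
    intro n _
    apply ContinuousOn.mul continuousOn_const
    intro t ht
    have ht0 : 0 ≤ t := by linarith [ht.1]
    have h1 := (hG M).2.2.2.2.2.1 n (fun j r => Z j r ^ 2) (fun j r => 2 * (Z j r *
        rhs B D ν (fun m => f m r) (fun m => Z m r) j)) (Ici 0) t (by
      intro j _
      have h2 := (hZ.2 j t ht0).fun_pow 2
      refine h2.congr_deriv ?_
      push_cast
      ring)
    exact h1.continuousWithinAt.mono fun s hs => by
      show 0 ≤ s
      linarith [hs.1]
  have hne : ∀ N : ℕ, ∃ t ∈ Icc (τ / 2) τ,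
      ∑ n ∈ Finset.range (N + 1), D ^ n * gen n (fun j => Z j t ^ 2) ≤ C' := by
    intro N
    by_contra hcon
    push Not at hcon
    have h1 := image_le_of_deriv_right_le_deriv_boundary
      (f := fun r => ∑ n ∈ Finset.range (N + 1), gen n (fun j => Z j r ^ 2))
      (f' := fun t => ∑ n ∈ Finset.range (N + 1), gen n (fun j => 2 * (Z j t *
        rhs B D ν (fun m => f m t) (fun m => Z m t) j))) (a := τ / 2) (b := τ)
      (B := fun t => E + (G / ν - ν * C') * (t - τ / 2))
      (B' := fun _ => G / ν - ν * C')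
      (fun t ht => by
        have ht0 : 0 ≤ t := by linarith [ht.1]
        exact ((energy_deriv hG hZ N ht0).continuousWithinAt).mono fun s hs => by
          show 0 ≤ s
          linarith [hs.1])
      (fun t ht => by
        have ht0 : 0 ≤ t := by linarith [ht.1]
        exact (energy_deriv hG hZ N ht0).mono (Ici_subset_Ici.2 ht0))
      (by
        have := hen N (τ / 2) (by positivity)
        simpa using this)
      (by fun_prop)
      (fun t _ => by
        have h2 : HasDerivAt (fun t : ℝ => E + (G / ν - ν * C') * (t - τ / 2))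
            (G / ν - ν * C') t := by
          have := (((hasDerivAt_id t).sub_const (τ / 2)).const_mul (G / ν - ν * C')).const_add E
          simpa using this
        exact h2.hasDerivWithinAt)
      (fun t ht => by
        have ht0 : 0 ≤ t := by linarith [ht.1]
        have h2 := energy_ineq hG hB hD hν hpos N ht0 (hGb N t ht0)
        have h3 := hcon t ⟨ht.1, ht.2.le⟩
        have h4 := mul_le_mul_of_nonneg_left h3.le hν.le
        linarith) (right_mem_Icc.2 (by linarith))
    have h2 : 0 ≤ ∑ n ∈ Finset.range (N + 1), gen n (fun j => Z j τ ^ 2) :=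
      Finset.sum_nonneg fun n _ => gen_nonneg hG _ _ fun j => sq_nonneg _
    have h3 : ν * C' * (τ / 2) = E + G * τ / ν + ν * τ / 2 := by
      rw [hC']
      field_simp
    have h4 : G / ν * (τ / 2) = G * τ / ν / 2 := by ring
    have h5 : 0 ≤ G * τ / ν := by positivity
    have h6 : 0 < ν * τ := by positivity
    have h7 : (G / ν - ν * C') * (τ - τ / 2) = G / ν * (τ / 2) - ν * C' * (τ / 2) := by ring
    rw [h7, h3, h4] at h1
    linarith
  -- compactness
  have hcompact := IsCompact.nonempty_iInter_of_sequence_nonempty_isCompact_isClosed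
    (fun N : ℕ => Icc (τ / 2) τ ∩
      (fun t => ∑ n ∈ Finset.range (N + 1), D ^ n * gen n (fun j => Z j t ^ 2)) ⁻¹' Iic C')
    (by
      intro N t ht
      refine ⟨ht.1, ?_⟩
      have h1 : ∑ n ∈ Finset.range (N + 1 + 1), D ^ n * gen n (fun j => Z j t ^ 2) ≤ C' := ht.2
      rw [Finset.sum_range_succ] at h1
      have h2 : 0 ≤ D ^ (N + 1) * gen (N + 1) (fun j => Z j t ^ 2) :=
        mul_nonneg (pow_nonneg (by linarith) _) (gen_nonneg hG _ _ fun j => sq_nonneg _)
      show ∑ n ∈ Finset.range (N + 1), D ^ n * gen n (fun j => Z j t ^ 2) ≤ C'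
      linarith)
    (by
      intro N
      obtain ⟨t, ht, ht'⟩ := hne N
      exact ⟨t, ht, ht'⟩)
    (isCompact_Icc.of_isClosed_subset
      ((hdc 0).preimage_isClosed_of_isClosed isClosed_Icc isClosed_Iic) inter_subset_left)
    (fun N => (hdc N).preimage_isClosed_of_isClosed isClosed_Icc isClosed_Iic)
  obtain ⟨t₀, ht₀⟩ := hcompact
  rw [mem_iInter] at ht₀
  refine ⟨t₀, ?_, (ht₀ 0).1.2, C', fun N => (ht₀ N).2⟩
  have := (ht₀ 0).1.1
  linarith

end Pool.Agent.N951.TR5
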