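import Pool.Agent.N964.GX.Stm
import Pool.Agent.N964.MX.F
import Pool.Agent.N99.MXD

set_option autoImplicit false

/-!
Project GX (helper964), part T (helper951): very large heights.
-/

namespace Pool.Agent.N951.GXT

open Complex
open Pool.Agent.N964.GX
open Pool.Agent.N964.MX (Dd kk ww Pl cc th cp wt kq)
open Pool.Agent.Y23 (Lg)

/-- the numerical estimate -/
lemma num (a b c L : ℝ) (ha : 0 ≤ a) (hb : 0 ≤ b) (hc : 0 ≤ c)
    (hL : (1 + 9 * a + 5 * b + c) ^ 4 ≤ L) :
    a * (1 + 2 * Real.log L) + b * (Real.sqrt L * (1 + Real.log L)) + c ≤ L := by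
  have hq : 1 ≤ 1 + 9 * a + 5 * b + c := by linarith
  have hL1 : 1 ≤ L := (one_le_pow₀ hq).trans hL
  have hL0 : 0 < L := by linarith
  obtain ⟨w, hw0, hw⟩ : ∃ w : ℝ, 0 ≤ w ∧ w ^ 4 = L := ⟨L ^ ((1 : ℝ) / 4), by positivity, by
    rw [← Real.rpow_natCast, ← Real.rpow_mul hL0.le]; norm_num⟩
  have hwq : 1 + 9 * a + 5 * b + c ≤ w := by
    rw [← hw] at hL
    exact le_of_pow_le_pow_left₀ (by norm_num) hw0 hL
  have hw1 : 1 ≤ w := hq.trans hwq
  have hlog : Real.log L ≤ 4 * w := by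
    rw [← hw, Real.log_pow]
    have := Real.log_le_sub_one_of_pos (by linarith : 0 < w)
    push_cast
    linarith
  have hsq : Real.sqrt L = w ^ 2 := by
    rw [← hw, show w ^ 4 = (w ^ 2) ^ 2 by ring, Real.sqrt_sq (by positivity)]
  rw [hsq]
  have hw2 : 1 ≤ w ^ 2 := one_le_pow₀ hw1
  have hw3 : 1 ≤ w ^ 3 := one_le_pow₀ hw1
  have h1 : w ≤ w ^ 3 := by nlinarith
  have h2 : w ^ 2 ≤ w ^ 3 := by nlinarith
  have k1 : a * (1 + 2 * Real.log L) ≤ a * (9 * w ^ 3) :=
    mul_le_mul_of_nonneg_left (by linarith) ha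
  have k2 : b * (w ^ 2 * (1 + Real.log L)) ≤ b * (5 * w ^ 3) := by
    apply mul_le_mul_of_nonneg_left _ hb
    have : w ^ 2 * (1 + Real.log L) ≤ w ^ 2 * (1 + 4 * w) :=
      mul_le_mul_of_nonneg_left (by linarith) (by positivity)
    nlinarith
  have k3 : c ≤ c * w ^ 3 := by nlinarith
  have k4 : (9 * a + 5 * b + c) * w ^ 3 ≤ w * w ^ 3 :=
    mul_le_mul_of_nonneg_right (by linarith) (by positivity)
  have e1 : w * w ^ 3 = L := by rw [← hw]; ring
  have e2 : a * (9 * w ^ 3) + b * (5 * w ^ 3) + c * w ^ 3 = (9 * a + 5 * b + c) * w ^ 3 := by ring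
  linarith

lemma Dd_le (k : ℕ) (u δ : ℝ) (hu : (k : ℝ) + 3 ≤ u) (hδ : 0 < δ)
    (h : 1 / δ ^ (k + 2) ≤ Real.exp u) : Dd u δ ≤ u / (k + 2) := by
  have hk : (0 : ℝ) ≤ k := Nat.cast_nonneg k
  have hu0 : 0 < u := by linarith
  have h1 : 1 / δ ≤ Real.exp (u / (k + 2)) := by
    have h2 : (1 / δ) ^ (k + 2) ≤ (Real.exp (u / (k + 2))) ^ (k + 2) := by
      rw [← Real.exp_nat_mul, one_div_pow]
      refine h.trans (le_of_eq ?_)
      congr 1
      push_cast
      field_simp
    exact le_of_pow_le_pow_left₀ (by omega) (Real.exp_pos _).le h2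
  unfold Dd
  rw [Real.log_le_iff_le_exp (by positivity)]
  set y := u / (k + 2) with hy
  have hy0 : 0 < y := by positivity
  have h3 : 1 / (u * δ) ≤ Real.exp y / u := by
    rw [← div_div, div_right_comm]
    exact div_le_div_of_nonneg_right h1 hu0.le
  have h4 : 1 ≤ Real.exp y * (1 - 1 / u) := by
    have h5 : 1 + y ≤ Real.exp y := by linarith [Real.add_one_le_exp y]
    have h6 : 0 ≤ 1 - 1 / u := by
      rw [sub_nonneg, div_le_one hu0]
      linarith
    refine le_trans ?_ (mul_le_mul_of_nonneg_right h5 h6)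
    have h7 : 1 / u ≤ y * (1 - 1 / u) := by
      rw [hy, div_le_iff₀ hu0]
      have e : u / (k + 2) * (1 - 1 / u) * u = u * (u - 1) / (k + 2) := by
        field_simp
      rw [e, le_div_iff₀ (by positivity)]
      nlinarith
    nlinarith
  have e : Real.exp y * (1 - 1 / u) = Real.exp y - Real.exp y / u := by ring
  linarith

theorem tail : S_tail := by
  intro hpt k A lc F a hF
  obtain ⟨C0, hC0, hpt⟩ := hpt k A lc F a hF
  obtain ⟨C1, hC1, hcoef⟩ := Pool.Agent.N99.MXD.coef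
  have hk0 : (0 : ℝ) ≤ k := Nat.cast_nonneg k
  have hk1 : (1 : ℝ) ≤ k := by exact_mod_cast hF.hk
  -- the threshold
  set L0 : ℝ := (1 + 9 * (((k : ℝ) + 2) * C0) + 5 * (((k : ℝ) + 2) * (k * C1)) + ((k : ℝ) + 2)) ^ 4 +
    Real.exp ((k : ℝ) + 3) + 2 * 362880 + Real.log (3 + C0) with hL0
  have hlogC : 0 ≤ Real.log (3 + C0) := Real.log_nonneg (by linarith)
  have hp1 : 0 ≤ (1 + 9 * (((k : ℝ) + 2) * C0) + 5 * (((k : ℝ) + 2) * (k * C1)) +
    ((k : ℝ) + 2)) ^ 4 := by positivity
  have hp2 := Real.exp_pos ((k : ℝ) + 3)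
  have hL0pos : 2 * 362880 ≤ L0 := by
    rw [hL0]
    linarith
  refine ⟨1 / L0, by positivity, ?_, ?_⟩
  · rw [div_le_div_iff₀ (by linarith) (by norm_num)]
    linarith
  intro δ t hδ hδ1 ht hLt
  -- size of `L`
  have hδ1' : δ ≤ 1 := hδ1.trans (by rw [div_le_one (by linarith)]; linarith)
  have hL : L0 ≤ Lg t := by
    have h1 : L0 ≤ 1 / δ := by
      rw [le_div_iff₀ hδ]
      rw [le_div_iff₀ (by linarith)] at hδ1
      linarith
    have h2 : 1 / δ ≤ 1 / δ ^ (k + 2) := by
      apply one_div_le_one_div_of_le (by positivity)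
      have := pow_le_pow_of_le_one hδ.le hδ1' (by omega : 1 ≤ k + 2)
      rwa [pow_one] at this
    linarith
  set L := Lg t with hLdef
  have hLpos : 0 < L := by linarith
  have hexpL : Real.exp L = 3 + t := by
    rw [hLdef]
    unfold Lg
    rw [abs_of_nonneg (by linarith), Real.exp_log (by linarith)]
  have ht3 : t = Real.exp L - 3 := by linarith
  set u := Real.log L with hu
  have hexpu : Real.exp u = L := Real.exp_log hLpos
  have huk : (k : ℝ) + 3 ≤ u := by
    rw [hu, Real.le_log_iff_exp_le hLpos]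
    rw [hL0] at hL
    linarith
  have hu0 : 0 < u := by linarith
  -- hypotheses of `S_pt`
  have hCt : C0 ≤ t := by
    have h1 : Real.log (3 + C0) ≤ L := by
      rw [hL0] at hL
      linarith
    have h2 := Real.exp_le_exp.2 h1
    rw [Real.exp_log (by linarith), hexpL] at h2
    linarith
  have h8 : Real.exp (8 * u) ≤ t := by
    have e1 : Real.exp (8 * u) = L ^ 8 := by
      rw [show (8 : ℝ) * u = ((8 : ℕ) : ℝ) * u by norm_num, Real.exp_nat_mul, hexpu]
    rw [e1, ht3]
    have h1 := Real.pow_div_factorial_le_exp L hLpos.le 9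
    have h2 : (Nat.factorial 9 : ℝ) = 362880 := by norm_num [Nat.factorial]
    rw [h2] at h1
    have h3 : 2 * L ^ 8 ≤ L ^ 9 / 362880 := by
      rw [le_div_iff₀ (by norm_num)]
      have : L ^ 9 = L ^ 8 * L := by ring
      rw [this]
      have h4 : 0 < L ^ 8 := by positivity
      nlinarith
    have h5 : 3 ≤ L ^ 8 := by
      have h6 : (3 : ℝ) ≤ L := by linarith
      have h7 : L ≤ L ^ 8 := by
        have := pow_le_pow_right₀ (by linarith : (1 : ℝ) ≤ L) (by norm_num : 1 ≤ 8)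
        rwa [pow_one] at this
      linarith
    linarith
  refine (hpt t δ u hCt hδ hδ1' (by linarith) h8).trans ?_
  -- the bounds
  have hDd : Dd u δ ≤ u / (k + 2) := Dd_le k u δ huk hδ (by rw [hexpu]; exact hLt)
  have hDd0 : 0 ≤ Dd u δ := Pool.Agent.N99.MXD.Dd_nonneg (by linarith) hδ
  have hDu : Dd u δ ≤ u := hDd.trans (div_le_self hu0.le (by linarith))
  have hlogu : Real.log u ≤ u := (Real.log_le_sub_one_of_pos hu0).trans (by linarith)
  obtain ⟨c1, -, c3, -⟩ := hcoef u δ (by linarith) hδ hδ1'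
  have hPA : ‖PA a u δ t‖ ≤ k * C1 * (Real.sqrt L * (1 + u)) := by
    unfold PA
    refine (norm_sum_le _ _).trans ?_
    have h1 : ∀ p ∈ Pl u, ‖(((cc u δ p : ℝ) : ℂ) * al a p) * (p : ℂ) ^ (-(t : ℂ) * I)‖ ≤
        k * cc u δ p := by
      intro p hp
      rw [Pool.Agent.N964.MX.mem_Pl] at hp
      have hp1 : (1 : ℝ) < p := by exact_mod_cast hp.2.one_lt
      have hlp : 0 < Real.log p := Real.log_pos hp1
      rw [norm_mul, norm_mul, Pool.Agent.N964.MX.norm_ppow hp.2.ne_zero, mul_one]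
      have hcc : 0 ≤ cc u δ p := by
        unfold cc
        apply mul_nonneg (div_nonneg hlp.le (Real.sqrt_nonneg _))
        exact (c1 (Real.log p) hlp (Pool.Agent.N964.MX.log_mem hp.2.one_lt.le hp.1)).1
      rw [Complex.norm_real, Real.norm_of_nonneg hcc, mul_comm]
      apply mul_le_mul_of_nonneg_right _ hcc
      unfold al
      rw [norm_div, Complex.norm_real, Real.norm_of_nonneg hlp.le, div_le_iff₀ hlp]
      have := hF.ram p
      rwa [ArithmeticFunction.vonMangoldt_apply_prime hp.2] at this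
    refine (Finset.sum_le_sum h1).trans ?_
    rw [← Finset.mul_sum, mul_assoc]
    apply mul_le_mul_of_nonneg_left _ hk0
    refine c3.trans ?_
    have e1 : Real.exp (u / 2) = Real.sqrt L := by
      rw [Real.sqrt_eq_rpow, Real.rpow_def_of_pos hLpos, ← hu]
      congr 1
      ring
    rw [e1, mul_assoc]
    apply mul_le_mul_of_nonneg_left _ hC1.le
    exact mul_le_mul_of_nonneg_left (by linarith) (Real.sqrt_nonneg _)
  have hnum := num (((k : ℝ) + 2) * C0) (((k : ℝ) + 2) * (k * C1)) ((k : ℝ) + 2) L (by positivity)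
    (by positivity) (by positivity) (by
      rw [hL0] at hL
      linarith)
  rw [← hu] at hnum
  -- conclusion
  have ht0 : 0 < t := by linarith
  rw [Real.rpow_def_of_pos ht0, Real.exp_le_exp]
  have hlogt : L - 1 ≤ Real.log t := by
    have h1 : L ≤ Real.log (2 * t) := by
      rw [hLdef]
      unfold Lg
      rw [abs_of_nonneg ht0.le]
      exact Real.log_le_log (by linarith) (by linarith)
    rw [Real.log_mul (by norm_num) ht0.ne'] at h1
    have h2 : Real.log 2 ≤ 1 := by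
      have := Real.log_two_lt_d9
      linarith
    linarith
  have hmain : k * L / u * Dd u δ ≤ k * L / (k + 2) := by
    have h1 : k * L / u * Dd u δ ≤ k * L / u * (u / (k + 2)) :=
      mul_le_mul_of_nonneg_left hDd (by positivity)
    refine h1.trans (le_of_eq ?_)
    field_simp
  have hsec : C0 * (1 + Real.log u + Dd u δ) ≤ C0 * (1 + 2 * u) :=
    mul_le_mul_of_nonneg_left (by linarith) (by linarith)
  have hk2 : (0 : ℝ) < (k : ℝ) + 2 := by linarith
  have hfin : k * L / (k + 2) + C0 * (1 + 2 * u) + k * C1 * (Real.sqrt L * (1 + u)) ≤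
      (L - 1) * (1 - 1 / ((k : ℝ) + 2)) := by
    have e1 : (L - 1) * (1 - 1 / ((k : ℝ) + 2)) = (L - 1) * (k + 1) / (k + 2) := by
      field_simp
      ring
    rw [e1, le_div_iff₀ hk2]
    have e2 : (k * L / (k + 2) + C0 * (1 + 2 * u) + k * C1 * (Real.sqrt L * (1 + u))) * (k + 2) =
        k * L + ((k : ℝ) + 2) * C0 * (1 + 2 * u) +
          ((k : ℝ) + 2) * (k * C1) * (Real.sqrt L * (1 + u)) := by
      field_simp
    rw [e2]
    nlinarith
  have hpos : 0 ≤ 1 - 1 / ((k : ℝ) + 2) := by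
    rw [sub_nonneg, div_le_one hk2]
    linarith
  have hlast : (L - 1) * (1 - 1 / ((k : ℝ) + 2)) ≤ Real.log t * (1 - 1 / ((k : ℝ) + 2)) :=
    mul_le_mul_of_nonneg_right hlogt hpos
  linarith

end Pool.Agent.N951.GXT
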